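import Mathlib
import Pool.Agent.Lib.helper23.PagingD

namespace Pool.Agent.Results.MP_9bbf37_lc.ExactRatio

open Pool.Agent.Lib.H23Paging

theorem result : ∀ (P : Type) [DecidableEq P] (k i l : ℕ) (C₀ : Finset P), 1 ≤ k → C₀.card ≤ k →
    (∃ S : Finset P, S.card = k + 1) → i < l →
      comp k i l C₀ = (((min k (l / (i + 1) + 1) : ℕ) : ℝ) : EReal) :=
  fun _ _ _ _ _ _ hk h0 hS hil => comp_eq hk h0 hS hil

end Pool.Agent.Results.MP_9bbf37_lc.ExactRatio
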