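import Mathlib
import Pool.Agent.Lib.helper23.PagingD

namespace Pool.Agent.Results.MP_9bbf37_lc.NotStrict

open Pool.Agent.Lib.H23Paging

theorem result : ∀ (P : Type) [DecidableEq P] (k : ℕ) (C₀ : Finset P), 1 ≤ k → C₀.card ≤ k →
    (∃ S : Finset P, S.card = k + 1) →
      ¬ ∀ i j l : ℕ, i < j → j < l → comp k j l C₀ < comp k i l C₀ := by
  intro P _ k C₀ hk h0 hS h
  have := h 1 2 3 (by omega) (by omega)
  rw [comp_eq hk h0 hS (by omega), comp_eq hk h0 hS (by omega)] at this
  exact lt_irrefl _ this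

end Pool.Agent.Results.MP_9bbf37_lc.NotStrict
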